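import Pool.Agent.ACF.Brown

set_option autoImplicit false
open MeasureTheory ProbabilityTheory Set Filter Topology
open scoped NNReal ENNReal Matrix

namespace Pool.Agent.Results.MP_aecc4f_an.NonlinearNash

/-- Column vectors of length `n` with the Euclidean norm. -/
abbrev Vec (n : ℕ) : Type := EuclideanSpace ℝ (Fin n)

/-- Real matrices with `a` rows and `b` columns. -/
abbrev Mat (a b : ℕ) : Type := Matrix (Fin a) (Fin b) ℝ

/-- The product `M x` of a matrix and a column vector. -/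
def act {a b : ℕ} (M : Mat a b) (x : Vec b) : Vec a := WithLp.toLp 2 (M *ᵥ WithLp.ofLp x)

/-- The data of the game: horizon `T > 0`, level `γ > 0`, coefficient matrices depending
continuously on `t ∈ [0, T]`, and `D(t)ᵀ D(t) = I`. -/
structure GameData (n m k p q : ℕ) where
  /-- the horizon -/
  T : ℝ
  /-- the disturbance attenuation level -/
  γ : ℝ
  /-- drift matrix -/
  A₁ : ℝ → Mat n n
  /-- diffusion matrix -/
  A₂ : ℝ → Mat n n
  /-- input matrix of the control `u` -/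
  B₁ : ℝ → Mat n m
  /-- input matrix of the disturbance `v` -/
  C₁ : ℝ → Mat n k
  /-- state part of the output `z` -/
  C : ℝ → Mat p n
  /-- control part of the output `z` -/
  D : ℝ → Mat q m
  T_pos : 0 < T
  γ_pos : 0 < γ
  cont_A₁ : ContinuousOn A₁ (Icc 0 T)
  cont_A₂ : ContinuousOn A₂ (Icc 0 T)
  cont_B₁ : ContinuousOn B₁ (Icc 0 T)
  cont_C₁ : ContinuousOn C₁ (Icc 0 T)
  cont_C : ContinuousOn C (Icc 0 T)
  cont_D : ContinuousOn D (Icc 0 T)
  D_iso : ∀ t ∈ Icc 0 T, (D t)ᵀ * D t = 1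

section probability

variable {Ω : Type*} [MeasurableSpace Ω]

/-- The natural filtration of `B`: the sigma algebra generated by `B_s`, `0 ≤ s ≤ t`. -/
abbrev past (B : ℝ≥0 → Ω → ℝ) (hm : ∀ t, StronglyMeasurable (B t)) (t : ℝ) : MeasurableSpace Ω :=
  (Filtration.natural B hm) t.toNNReal

/-- The process `X` is adapted on `[0, T]` to the natural filtration of `B` (completed: each `X_t`
is almost surely equal to a function measurable with respect to the past up to `t`). -/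
def IsAdapted (P : Measure Ω) (B : ℝ≥0 → Ω → ℝ) (hm : ∀ t, StronglyMeasurable (B t)) (T : ℝ)
    {d : ℕ} (X : ℝ → Ω → Vec d) : Prop :=
  ∀ t ∈ Icc 0 T, AEStronglyMeasurable[past B hm t] (X t) P

/-- The product of Lebesgue measure on `[0, T]` with `P`. -/
noncomputable def timeProd (T : ℝ) (P : Measure Ω) : Measure (ℝ × Ω) :=
  (volume.restrict (Icc 0 T)).prod P

/-- The space `L²_F([0, T], ℝᵈ)`: adapted, jointly measurable processes with
`E ∫₀ᵀ ‖W‖² dt < ∞`. -/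
structure IsL2 (P : Measure Ω) (B : ℝ≥0 → Ω → ℝ) (hm : ∀ t, StronglyMeasurable (B t)) (T : ℝ)
    {d : ℕ} (W : ℝ → Ω → Vec d) : Prop where
  adapted : IsAdapted P B hm T W
  square_integrable : MemLp (fun a : ℝ × Ω => W a.1 a.2) 2 (timeProd T P)

/-- `X` is jointly measurable, square integrable and continuous in mean square on `[0, T]`. -/
structure IsMSContinuous (P : Measure Ω) (T : ℝ) {d : ℕ} (X : ℝ → Ω → Vec d) : Prop where
  jointly_measurable : AEStronglyMeasurable (fun a : ℝ × Ω => X a.1 a.2) (timeProd T P)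
  square_integrable : ∀ t ∈ Icc 0 T, MemLp (X t) 2 P
  continuous : ∀ s ∈ Icc 0 T,
    Tendsto (fun t => eLpNorm (fun ω => X t ω - X s ω) 2 P) (𝓝[Icc 0 T] s) (𝓝 0)

/-- The left endpoint sum of `∫₀ᵗ H dB` for the partition of `[0, T]` into `N` equal parts:
`∑_{j < N} (B_{min(T(j+1)/N, t)} - B_{min(Tj/N, t)}) H_{Tj/N}`. -/
noncomputable def leftSum (B : ℝ≥0 → Ω → ℝ) (T : ℝ) (N : ℕ) (t : ℝ) {d : ℕ}
    (H : ℝ → Ω → Vec d) (ω : Ω) : Vec d :=
  ∑ j ∈ Finset.range N, (B (min (T * ((j : ℝ) + 1) / N) t).toNNReal ω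
    - B (min (T * (j : ℝ) / N) t).toNNReal ω) • H (T * (j : ℝ) / N) ω

/-- `I` is the Itô integral process `I_t = ∫₀ᵗ H dB` on `[0, T]`: for every `t` the left endpoint
sums converge to `I_t` in mean square. (Here it is only used for mean square continuous
adapted `H`, for which this limit is the Itô integral.) -/
def IsItoIntegral (P : Measure Ω) (B : ℝ≥0 → Ω → ℝ) (T : ℝ) {d : ℕ} (H I : ℝ → Ω → Vec d) :
    Prop :=
  ∀ t ∈ Icc 0 T, MemLp (I t) 2 P ∧
    Tendsto (fun N : ℕ => eLpNorm (fun ω => leftSum B T N t H ω - I t ω) 2 P) atTop (𝓝 0)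

variable {n m k p q : ℕ}

/-- The drift `A₁ x + B₁ U + C₁ V` at time `t`. -/
noncomputable def drift (G : GameData n m k p q) (x : ℝ → Ω → Vec n) (U : ℝ → Ω → Vec m)
    (V : ℝ → Ω → Vec k) (t : ℝ) (ω : Ω) : Vec n :=
  act (G.A₁ t) (x t ω) + act (G.B₁ t) (U t ω) + act (G.C₁ t) (V t ω)

/-- `x` is an adapted, mean square continuous solution of
`dx = [A₁ x + B₁ U + C₁ V] dt + A₂ x dB`, `x(0) = x₀`, on `[0, T]`. -/
structure IsSolution (P : Measure Ω) (B : ℝ≥0 → Ω → ℝ) (hm : ∀ t, StronglyMeasurable (B t))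
    (G : GameData n m k p q) (x₀ : Vec n) (U : ℝ → Ω → Vec m) (V : ℝ → Ω → Vec k)
    (x : ℝ → Ω → Vec n) : Prop where
  adapted : IsAdapted P B hm G.T x
  continuous : IsMSContinuous P G.T x
  equation : ∃ I : ℝ → Ω → Vec n, IsItoIntegral P B G.T (fun t ω => act (G.A₂ t) (x t ω)) I ∧
    ∀ t ∈ Icc 0 G.T, ∀ᵐ ω ∂P, x t ω = x₀ + (∫ s in (0 : ℝ)..t, drift G x U V s ω) + I t ω

/-- The square `‖z‖² = ‖C x‖² + ‖D U‖²` of the output `z = (C x, D U)`. -/
noncomputable def outputSq (G : GameData n m k p q) (x : ℝ → Ω → Vec n) (U : ℝ → Ω → Vec m)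
    (t : ℝ) (ω : Ω) : ℝ :=
  ‖act (G.C t) (x t ω)‖ ^ 2 + ‖act (G.D t) (U t ω)‖ ^ 2

/-- The cost `J₁ = E ∫₀ᵀ (γ² ‖V‖² - ‖z‖²) dt` for the state `x` and the controls `U`, `V`. -/
noncomputable def J₁ (P : Measure Ω) (G : GameData n m k p q) (x : ℝ → Ω → Vec n)
    (U : ℝ → Ω → Vec m) (V : ℝ → Ω → Vec k) : ℝ :=
  ∫ ω, (∫ t in (0 : ℝ)..G.T, (G.γ ^ 2 * ‖V t ω‖ ^ 2 - outputSq G x U t ω)) ∂P

/-- The cost `J₂ = E ∫₀ᵀ ‖z‖² dt` for the state `x` and the control `U`. -/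
noncomputable def J₂ (P : Measure Ω) (G : GameData n m k p q) (x : ℝ → Ω → Vec n)
    (U : ℝ → Ω → Vec m) : ℝ :=
  ∫ ω, (∫ t in (0 : ℝ)..G.T, outputSq G x U t ω) ∂P

/-- The process `f(t, x_t)` obtained from the feedback law `f` along the state `x`. -/
def along {a b : ℕ} (f : ℝ → Vec a → Vec b) (x : ℝ → Ω → Vec a) (t : ℝ) (ω : Ω) : Vec b :=
  f t (x t ω)

/-- The feedback laws `u(t, x)`, `v(t, x)` form a Nash equilibrium. For every `x₀`: the loop
closed by both laws has a solution `x` with both control processes in `L²_F`; for every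
`V ∈ L²_F` the loop closed by `u` with disturbance `V` has a solution `y` with control process in
`L²_F` and `J₁(u, v) ≤ J₁(u, V)`; for every `U ∈ L²_F` the loop closed by `v` with control `U`
has a solution `y` with disturbance process in `L²_F` and `J₂(u, v) ≤ J₂(U, v)`.
For admissible laws (closed loops have exactly one solution, control processes in `L²_F`) this is
exactly the Nash property; in general it asks less, since no uniqueness is required. -/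
def IsFeedbackNash (P : Measure Ω) (B : ℝ≥0 → Ω → ℝ) (hm : ∀ t, StronglyMeasurable (B t))
    (G : GameData n m k p q) (u : ℝ → Vec n → Vec m) (v : ℝ → Vec n → Vec k) : Prop :=
  ∀ x₀ : Vec n, ∃ x : ℝ → Ω → Vec n,
    IsL2 P B hm G.T (along u x) ∧ IsL2 P B hm G.T (along v x) ∧
    IsSolution P B hm G x₀ (along u x) (along v x) x ∧
    (∀ V : ℝ → Ω → Vec k, IsL2 P B hm G.T V → ∃ y : ℝ → Ω → Vec n,
      IsL2 P B hm G.T (along u y) ∧ IsSolution P B hm G x₀ (along u y) V y ∧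
      J₁ P G x (along u x) (along v x) ≤ J₁ P G y (along u y) V) ∧
    (∀ U : ℝ → Ω → Vec m, IsL2 P B hm G.T U → ∃ y : ℝ → Ω → Vec n,
      IsL2 P B hm G.T (along v y) ∧ IsSolution P B hm G x₀ U (along v y) y ∧
      J₂ P G x (along u x) ≤ J₂ P G y U)

end probability

/-- The law `f(t, x)` has at most linear growth, `‖f(t, x)‖ ≤ κ (1 + ‖x‖)` for `t ∈ [0, T]` and
all `x`, and `f(t, x) = K(t) x + o(‖x‖)` as `x → 0`, uniformly in `t ∈ [0, T]`, with `K`
continuous on `[0, T]`. In particular `f(t, 0) = 0`. Nothing else is asked: away from the origin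
`f` may be discontinuous. -/
structure IsTameLaw (T : ℝ) {n m : ℕ} (f : ℝ → Vec n → Vec m) (K : ℝ → Mat m n) : Prop where
  continuous : ContinuousOn K (Icc 0 T)
  growth : ∃ κ : ℝ, ∀ t ∈ Icc 0 T, ∀ x, ‖f t x‖ ≤ κ * (1 + ‖x‖)
  linear_part : ∀ η > 0, ∃ δ > 0, ∀ t ∈ Icc 0 T, ∀ x, ‖x‖ ≤ δ → ‖f t x - act (K t) x‖ ≤ η * ‖x‖

section riccati

variable {n m k p q : ℕ}

/-- The right side of the equation for `-Ṗ₁` in (iii). -/
noncomputable def rhs₁ (G : GameData n m k p q) (t : ℝ) (P₁ P₂ : Mat n n) : Mat n n :=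
  (G.A₁ t)ᵀ * P₁ + P₁ * G.A₁ t + (G.A₂ t)ᵀ * P₁ * G.A₂ t - (G.C t)ᵀ * G.C t
    - (G.γ ^ 2)⁻¹ • (P₁ * G.C₁ t * (G.C₁ t)ᵀ * P₁) - P₁ * G.B₁ t * (G.B₁ t)ᵀ * P₂
    - P₂ * G.B₁ t * (G.B₁ t)ᵀ * P₁ - P₂ * G.B₁ t * (G.B₁ t)ᵀ * P₂

/-- The right side of the equation for `-Ṗ₂` in (iii). -/
noncomputable def rhs₂ (G : GameData n m k p q) (t : ℝ) (P₁ P₂ : Mat n n) : Mat n n :=
  (G.A₁ t)ᵀ * P₂ + P₂ * G.A₁ t + (G.A₂ t)ᵀ * P₂ * G.A₂ t + (G.C t)ᵀ * G.C t
    - (G.γ ^ 2)⁻¹ • (P₂ * G.C₁ t * (G.C₁ t)ᵀ * P₁ + P₁ * G.C₁ t * (G.C₁ t)ᵀ * P₂)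
    - P₂ * G.B₁ t * (G.B₁ t)ᵀ * P₂

/-- Statement (iii): `(P₁, P₂)` is a (symmetric) solution on `[0, T]` of the coupled equations
with `P₁(T) = P₂(T) = 0`. The derivatives are taken entry by entry, one sided at `0` and `T`. -/
structure CoupledRiccati (G : GameData n m k p q) (P₁ P₂ : ℝ → Mat n n) : Prop where
  symmetric₁ : ∀ t ∈ Icc 0 G.T, (P₁ t)ᵀ = P₁ t
  symmetric₂ : ∀ t ∈ Icc 0 G.T, (P₂ t)ᵀ = P₂ t
  final₁ : P₁ G.T = 0
  final₂ : P₂ G.T = 0
  equation₁ : ∀ t ∈ Icc 0 G.T, ∀ i j, HasDerivWithinAt (fun s => P₁ s i j)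
    (-(rhs₁ G t (P₁ t) (P₂ t) i j)) (Icc 0 G.T) t
  equation₂ : ∀ t ∈ Icc 0 G.T, ∀ i j, HasDerivWithinAt (fun s => P₂ s i j)
    (-(rhs₂ G t (P₁ t) (P₂ t) i j)) (Icc 0 G.T) t

end riccati

section matrices

variable {a b c : ℕ}

private noncomputable def cl (M : Mat a b) : Vec b →L[ℝ] Vec a :=
  LinearMap.toContinuousLinearMap (Matrix.toEuclideanLin M)

private lemma cl_apply (M : Mat a b) (x : Vec b) : cl M x = act M x := rfl

private lemma cl_add (M N : Mat a b) : cl (M + N) = cl M + cl N := by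
  unfold cl
  rw [map_add, map_add]

private lemma cl_sub (M N : Mat a b) : cl (M - N) = cl M - cl N := by
  unfold cl
  rw [map_sub, map_sub]

private lemma cl_neg (M : Mat a b) : cl (-M) = -cl M := by
  unfold cl
  rw [map_neg, map_neg]

private lemma cl_zero : cl (0 : Mat a b) = 0 := by
  unfold cl
  rw [map_zero, map_zero]

private lemma cl_smul (r : ℝ) (M : Mat a b) : cl (r • M) = r • cl M := by
  unfold cl
  rw [map_smul, map_smul]

private lemma cl_mul (M : Mat a b) (N : Mat b c) : cl (M * N) = cl M ∘L cl N := by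
  ext x i
  simp only [cl_apply, ContinuousLinearMap.comp_apply, act, Matrix.mulVec_mulVec]

private lemma cl_one : cl (1 : Mat a a) = ContinuousLinearMap.id ℝ (Vec a) := by
  ext x i
  simp [cl_apply, act]

private lemma cl_transpose (M : Mat a b) : cl Mᵀ = ContinuousLinearMap.adjoint (cl M) := by
  rw [ContinuousLinearMap.eq_adjoint_iff]
  intro x y
  rw [cl_apply, cl_apply]
  simp only [act, EuclideanSpace.inner_eq_star_dotProduct]
  simp [Matrix.dotProduct_mulVec, Matrix.vecMul_transpose]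

private lemma cl_inj {M N : Mat a b} (h : cl M = cl N) : M = N := by
  unfold cl at h
  exact Matrix.toEuclideanLin.injective (LinearMap.toContinuousLinearMap.injective h)

private lemma cl_cont {M : ℝ → Mat a b} {s : Set ℝ} (h : ContinuousOn M s) :
    ContinuousOn (fun t => cl (M t)) s := by
  have h1 : Continuous (fun M : Mat a b => cl M) := by
    let L : Mat a b →ₗ[ℝ] (Vec b →L[ℝ] Vec a) :=
      LinearMap.toContinuousLinearMap.toLinearMap ∘ₗ Matrix.toEuclideanLin.toLinearMap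
    exact L.continuous_of_finiteDimensional
  exact h1.comp_continuousOn h

private noncomputable def toMat (L : Vec b →L[ℝ] Vec a) : Mat a b :=
  Matrix.of fun i j => L (EuclideanSpace.single j 1) i

private lemma cl_toMat (L : Vec b →L[ℝ] Vec a) : cl (toMat L) = L := by
  refine ContinuousLinearMap.coe_injective ?_
  refine (EuclideanSpace.basisFun (Fin b) ℝ).toBasis.ext fun j => ?_
  ext i
  simp [cl_apply, act, toMat]

private lemma toMat_deriv {S : ℝ → Vec b →L[ℝ] Vec a} {S' : Vec b →L[ℝ] Vec a} {s : Set ℝ}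
    {t : ℝ} (h : HasDerivWithinAt S S' s t) (i : Fin a) (j : Fin b) :
    HasDerivWithinAt (fun r => toMat (S r) i j) (toMat S' i j) s t := by
  have h1 := h.clm_apply (hasDerivWithinAt_const t s (EuclideanSpace.single j (1 : ℝ)))
  simp only [map_zero, add_zero] at h1
  exact (EuclideanSpace.proj (𝕜 := ℝ) i).hasFDerivAt.comp_hasDerivWithinAt t h1

end matrices

section proof

open Pool.Agent.ACF

variable {Ω : Type*} [MeasurableSpace Ω] {P : Measure Ω} {B : ℝ≥0 → Ω → ℝ}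
  {hm : ∀ t, StronglyMeasurable (B t)} {n m k p q : ℕ}

private lemma law_ok {T : ℝ} {f : ℝ → Vec n → Vec m} {K : ℝ → Mat m n}
    (h : IsTameLaw T f K) : LawOK T f (fun t => cl (K t)) := by
  have hc := cl_cont h.continuous
  refine ⟨hc, ?_, h.linear_part⟩
  obtain ⟨κ, hκ⟩ := h.growth
  obtain ⟨δ, hδ, hd⟩ := h.linear_part 1 one_pos
  obtain ⟨c, hc⟩ := isCompact_Icc.exists_bound_of_continuousOn (s := Icc (0 : ℝ) T) hc
  refine ⟨(1 + |c|) + |κ| * (δ⁻¹ + 1), fun t ht x => ?_⟩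
  have hx := norm_nonneg x
  have hδi : 0 < δ⁻¹ := inv_pos.2 hδ
  rcases le_or_gt ‖x‖ δ with hle | hgt
  · have h1 := hd t ht x hle
    have h2 : ‖act (K t) x‖ ≤ |c| * ‖x‖ :=
      (cl (K t)).le_of_opNorm_le ((hc t ht).trans (le_abs_self c)) x
    have h3 : ‖f t x‖ ≤ ‖f t x - act (K t) x‖ + ‖act (K t) x‖ := by
      have := norm_add_le (f t x - act (K t) x) (act (K t) x)
      simpa using this
    have h4 : 0 ≤ |κ| * (δ⁻¹ + 1) * ‖x‖ := by positivity
    nlinarith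
  · have h1 := hκ t ht x
    have h2 : κ * (1 + ‖x‖) ≤ |κ| * (1 + ‖x‖) :=
      mul_le_mul_of_nonneg_right (le_abs_self κ) (by positivity)
    have h3 : 1 ≤ δ⁻¹ * ‖x‖ := by
      rw [inv_mul_eq_div, le_div_iff₀ hδ, one_mul]
      exact hgt.le
    have h4 : |κ| * (1 + ‖x‖) ≤ |κ| * ((δ⁻¹ + 1) * ‖x‖) :=
      mul_le_mul_of_nonneg_left (by linarith) (abs_nonneg κ)
    have h5 : 0 ≤ (1 + |c|) * ‖x‖ := by positivity
    nlinarith

private lemma norm_D (G : GameData n m k p q) {t : ℝ} (ht : t ∈ Icc 0 G.T) (z : Vec m) :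
    ‖act (G.D t) z‖ ^ 2 = ‖z‖ ^ 2 := by
  have h1 : inner ℝ (cl (G.D t) z) (cl (G.D t) z) = inner ℝ z z := by
    rw [← ContinuousLinearMap.adjoint_inner_left, ← cl_transpose,
      ← ContinuousLinearMap.comp_apply, ← cl_mul, G.D_iso t ht, cl_one,
      ContinuousLinearMap.id_apply]
  rw [real_inner_self_eq_norm_sq, real_inner_self_eq_norm_sq] at h1
  exact h1

private lemma inner_CC (G : GameData n m k p q) (t : ℝ) (z : Vec n) :
    inner ℝ ((ContinuousLinearMap.adjoint (cl (G.C t)) ∘L cl (G.C t)) z) z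
      = ‖act (G.C t) z‖ ^ 2 := by
  rw [ContinuousLinearMap.comp_apply, ContinuousLinearMap.adjoint_inner_left,
    real_inner_self_eq_norm_sq, cl_apply]

private lemma to_ctl {T : ℝ} {d : ℕ} {W : ℝ → Ω → Vec d} (h : IsL2 P B hm T W) :
    Ctl P (natF B hm) T W :=
  ⟨h.adapted, h.square_integrable⟩

private lemma of_ctl {T : ℝ} {d : ℕ} {W : ℝ → Ω → Vec d} (h : Ctl P (natF B hm) T W) :
    IsL2 P B hm T W :=
  ⟨h.adp, h.memLp⟩

private lemma to_sol {G : GameData n m k p q} {x₀ : Vec n} {U : ℝ → Ω → Vec m}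
    {V : ℝ → Ω → Vec k} {x : ℝ → Ω → Vec n} (h : IsSolution P B hm G x₀ U V x) :
    Sol P (natF B hm) (fun t => B t.toNNReal) G.T (fun t => cl (G.A₁ t)) (fun t => cl (G.A₂ t))
      (fun t => cl (G.B₁ t)) (fun t => cl (G.C₁ t)) x₀ U V x := by
  refine ⟨h.adapted, ⟨h.continuous.square_integrable, h.continuous.continuous⟩,
    h.continuous.jointly_measurable, ?_⟩
  obtain ⟨I, hI, he⟩ := h.equation
  exact ⟨I, hI, he⟩

variable [IsProbabilityMeasure P]

private lemma cost_int (G : GameData n m k p q) {x : ℝ → Ω → Vec n} {U : ℝ → Ω → Vec m}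
    (hx : MemLp (fun a : ℝ × Ω => x a.1 a.2) 2 (muT G.T P))
    (hU : MemLp (fun a : ℝ × Ω => U a.1 a.2) 2 (muT G.T P)) :
    Integrable (fun a : ℝ × Ω => outputSq G x U a.1 a.2) (muT G.T P) := by
  have i1 := int_sq (z := fun t ω => cl (G.C t) (x t ω))
    (clm_memLp G.T_pos.le (cl_cont G.cont_C) hx)
  have i2 := int_sq (z := fun t ω => cl (G.D t) (U t ω))
    (clm_memLp G.T_pos.le (cl_cont G.cont_D) hU)
  exact i1.add i2

private lemma J₁_eq (G : GameData n m k p q) {x : ℝ → Ω → Vec n} {U : ℝ → Ω → Vec m}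
    {V : ℝ → Ω → Vec k} (hx : MemLp (fun a : ℝ × Ω => x a.1 a.2) 2 (muT G.T P))
    (hU : MemLp (fun a : ℝ × Ω => U a.1 a.2) 2 (muT G.T P))
    (hV : MemLp (fun a : ℝ × Ω => V a.1 a.2) 2 (muT G.T P)) :
    J₁ P G x U V = cst (G.γ ^ 2) (-1)
      (fun t => -(ContinuousLinearMap.adjoint (cl (G.C t)) ∘L cl (G.C t))) G.T P x U V := by
  have i1 : Integrable (fun a : ℝ × Ω => G.γ ^ 2 * ‖V a.1 a.2‖ ^ 2) (muT G.T P) :=
    (int_sq hV).const_mul _
  have i2 := cost_int G hx hU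
  have i3 : Integrable (fun a : ℝ × Ω => G.γ ^ 2 * ‖V a.1 a.2‖ ^ 2 - outputSq G x U a.1 a.2)
    (muT G.T P) := i1.sub i2
  unfold J₁ cst
  rw [exp_time (f := fun t ω => G.γ ^ 2 * ‖V t ω‖ ^ 2 - outputSq G x U t ω) G.T_pos.le i3]
  refine integral_congr_ae ?_
  filter_upwards [muT_ae (P := P) G.T] with a ha
  simp only [outputSq]
  rw [norm_D G ha, neg_apply, inner_neg_left, inner_CC]
  ring

private lemma J₂_eq (G : GameData n m k p q) {x : ℝ → Ω → Vec n} {U : ℝ → Ω → Vec m}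
    {V : ℝ → Ω → Vec k} (hx : MemLp (fun a : ℝ × Ω => x a.1 a.2) 2 (muT G.T P))
    (hU : MemLp (fun a : ℝ × Ω => U a.1 a.2) 2 (muT G.T P)) :
    J₂ P G x U = cst 1 0
      (fun t => ContinuousLinearMap.adjoint (cl (G.C t)) ∘L cl (G.C t)) G.T P x V U := by
  have i2 := cost_int G hx hU
  unfold J₂ cst
  rw [exp_time (f := fun t ω => outputSq G x U t ω) G.T_pos.le i2]
  refine integral_congr_ae ?_
  filter_upwards [muT_ae (P := P) G.T] with a ha
  simp only [outputSq]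
  rw [norm_D G ha, inner_CC]
  ring

private lemma sol_memLp {G : GameData n m k p q} {x₀ : Vec n} {U : ℝ → Ω → Vec m}
    {V : ℝ → Ω → Vec k} {x : ℝ → Ω → Vec n} (h : IsSolution P B hm G x₀ U V x) :
    MemLp (fun a : ℝ × Ω => x a.1 a.2) 2 (muT G.T P) :=
  (to_sol h).msc.joint h.continuous.jointly_measurable

end proof

/-- If the stochastic game has a nonlinear feedback Nash equilibrium `(u(t, x), v(t, x))` whose
laws have at most linear growth and, uniformly in `t ∈ [0, T]`, a derivative at `x = 0` with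
`u(t, 0) = v(t, 0) = 0`, then the coupled Riccati equations (iii) have a solution `(P₁, P₂)` on
`[0, T]`, and the linear parts of the laws are `K₂ = -B₁ᵀ P₂` and `K₁ = -γ⁻² C₁ᵀ P₁`. -/
theorem result {n m k p q : ℕ} (G : GameData n m k p q) {Ω : Type*} [MeasurableSpace Ω]
    {P : Measure Ω} {B : ℝ≥0 → Ω → ℝ} (hB : IsBrownianReal B P)
    (hm : ∀ t, StronglyMeasurable (B t))
    {u : ℝ → Vec n → Vec m} {v : ℝ → Vec n → Vec k} {K₂ : ℝ → Mat m n} {K₁ : ℝ → Mat k n}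
    (hu : IsTameLaw G.T u K₂) (hv : IsTameLaw G.T v K₁)
    (hNash : IsFeedbackNash P B hm G u v) :
    ∃ P₁ P₂ : ℝ → Mat n n, CoupledRiccati G P₁ P₂ ∧
      ∀ t ∈ Icc 0 G.T, K₂ t = -((G.B₁ t)ᵀ * P₂ t) ∧
        K₁ t = -((G.γ ^ 2)⁻¹ • ((G.C₁ t)ᵀ * P₁ t)) := by
  have hprob : IsProbabilityMeasure P := hB.isGaussianProcess.isProbabilityMeasure
  have hN := Pool.Agent.ACF.noise_of_brownian hB.toIsPreBrownianReal hm
  have hJ := Pool.Agent.ACF.jm_of_brownian hB hm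
  have hγ2 : (0 : ℝ) < G.γ ^ 2 := pow_pos G.γ_pos 2
  have cA := cl_cont G.cont_A₁
  have cA2 := cl_cont G.cont_A₂
  have cB := cl_cont G.cont_B₁
  have cC1 := cl_cont G.cont_C₁
  have cC := cl_cont G.cont_C
  have hcQ : ContinuousOn (fun t => ContinuousLinearMap.adjoint (cl (G.C t)) ∘L cl (G.C t))
      (Icc 0 G.T) := (Pool.Agent.ACF.adj_cont cC).clm_comp cC
  have hQs : ∀ t ∈ Icc 0 G.T,
      ContinuousLinearMap.adjoint (ContinuousLinearMap.adjoint (cl (G.C t)) ∘L cl (G.C t))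
        = ContinuousLinearMap.adjoint (cl (G.C t)) ∘L cl (G.C t) := fun t _ => by
    rw [ContinuousLinearMap.adjoint_comp, ContinuousLinearMap.adjoint_adjoint]
  have hcQn : ContinuousOn (fun t => -(ContinuousLinearMap.adjoint (cl (G.C t)) ∘L cl (G.C t)))
      (Icc 0 G.T) := hcQ.neg
  have hQns : ∀ t ∈ Icc 0 G.T,
      ContinuousLinearMap.adjoint (-(ContinuousLinearMap.adjoint (cl (G.C t)) ∘L cl (G.C t)))
        = -(ContinuousLinearMap.adjoint (cl (G.C t)) ∘L cl (G.C t)) := fun t ht => by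
    rw [map_neg, hQs t ht]
  -- the disturbance player
  have hopt1 : Pool.Agent.ACF.Opt P (Pool.Agent.ACF.natF B hm) (fun t => B t.toNNReal) G.T
      (fun t => cl (G.A₁ t)) (fun t => cl (G.A₂ t)) (fun t => cl (G.B₁ t))
      (fun t => cl (G.C₁ t)) (G.γ ^ 2) (-1)
      (fun t => -(ContinuousLinearMap.adjoint (cl (G.C t)) ∘L cl (G.C t))) u v := by
    intro x₀
    obtain ⟨x, hux, hvx, hsol, hV, -⟩ := hNash x₀
    refine ⟨x, to_ctl hux, to_ctl hvx, to_sol hsol, fun W hW => ?_⟩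
    obtain ⟨y, huy, hsoly, hle⟩ := hV W (of_ctl hW)
    refine ⟨y, to_ctl huy, to_sol hsoly, ?_⟩
    rw [J₁_eq G (sol_memLp hsol) (to_ctl hux).memLp (to_ctl hvx).memLp,
      J₁_eq G (sol_memLp hsoly) (to_ctl huy).memLp hW.memLp] at hle
    exact hle
  -- the control player
  have hopt2 : Pool.Agent.ACF.Opt P (Pool.Agent.ACF.natF B hm) (fun t => B t.toNNReal) G.T
      (fun t => cl (G.A₁ t)) (fun t => cl (G.A₂ t)) (fun t => cl (G.C₁ t))
      (fun t => cl (G.B₁ t)) 1 0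
      (fun t => ContinuousLinearMap.adjoint (cl (G.C t)) ∘L cl (G.C t)) v u := by
    intro x₀
    obtain ⟨x, hux, hvx, hsol, -, hU⟩ := hNash x₀
    refine ⟨x, to_ctl hvx, to_ctl hux, (to_sol hsol).swap, fun W hW => ?_⟩
    obtain ⟨y, hvy, hsoly, hle⟩ := hU W (of_ctl hW)
    refine ⟨y, to_ctl hvy, (to_sol hsoly).swap, ?_⟩
    rw [J₂_eq G (V := along v x) (sol_memLp hsol) (to_ctl hux).memLp,
      J₂_eq G (V := along v y) (sol_memLp hsoly) hW.memLp] at hle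
    exact hle
  obtain ⟨S₁, hP1T, hP1s, hP1d, hK1⟩ := Pool.Agent.ACF.player hN hJ G.T_pos cA cA2 cB cC1 hγ2
    hcQn hQns (law_ok hu) (law_ok hv) hopt1
  obtain ⟨S₂, hP2T, hP2s, hP2d, hK2⟩ := Pool.Agent.ACF.player hN hJ G.T_pos cA cA2 cC1 cB
    one_pos hcQ hQs (law_ok hv) (law_ok hu) hopt2
  have hK2' : ∀ t ∈ Icc 0 G.T, cl (K₂ t)
      = -(ContinuousLinearMap.adjoint (cl (G.B₁ t)) ∘L S₂ t) := fun t ht => by
    rw [hK2 t ht, inv_one, one_smul]
  have e1 : ∀ t, toMat (-(ContinuousLinearMap.adjoint (cl (G.A₁ t)) ∘L S₁ t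
      + S₁ t ∘L cl (G.A₁ t) + ContinuousLinearMap.adjoint (cl (G.A₂ t)) ∘L S₁ t ∘L cl (G.A₂ t)
      - ContinuousLinearMap.adjoint (cl (G.C t)) ∘L cl (G.C t)
      - (G.γ ^ 2)⁻¹ • (S₁ t ∘L cl (G.C₁ t) ∘L ContinuousLinearMap.adjoint (cl (G.C₁ t)) ∘L S₁ t)
      - S₁ t ∘L cl (G.B₁ t) ∘L ContinuousLinearMap.adjoint (cl (G.B₁ t)) ∘L S₂ t
      - S₂ t ∘L cl (G.B₁ t) ∘L ContinuousLinearMap.adjoint (cl (G.B₁ t)) ∘L S₁ t
      - S₂ t ∘L cl (G.B₁ t) ∘L ContinuousLinearMap.adjoint (cl (G.B₁ t)) ∘L S₂ t))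
      = -(rhs₁ G t (toMat (S₁ t)) (toMat (S₂ t))) := by
    intro t
    apply cl_inj
    rw [cl_toMat, cl_neg]
    unfold rhs₁
    simp only [cl_add, cl_sub, cl_smul, cl_mul, cl_transpose, cl_toMat,
      ContinuousLinearMap.comp_assoc]
  have e2 : ∀ t, toMat (-(ContinuousLinearMap.adjoint (cl (G.A₁ t)) ∘L S₂ t
      + S₂ t ∘L cl (G.A₁ t) + ContinuousLinearMap.adjoint (cl (G.A₂ t)) ∘L S₂ t ∘L cl (G.A₂ t)
      + ContinuousLinearMap.adjoint (cl (G.C t)) ∘L cl (G.C t)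
      - (G.γ ^ 2)⁻¹ • (S₂ t ∘L cl (G.C₁ t) ∘L ContinuousLinearMap.adjoint (cl (G.C₁ t)) ∘L S₁ t
        + S₁ t ∘L cl (G.C₁ t) ∘L ContinuousLinearMap.adjoint (cl (G.C₁ t)) ∘L S₂ t)
      - S₂ t ∘L cl (G.B₁ t) ∘L ContinuousLinearMap.adjoint (cl (G.B₁ t)) ∘L S₂ t))
      = -(rhs₂ G t (toMat (S₁ t)) (toMat (S₂ t))) := by
    intro t
    apply cl_inj
    rw [cl_toMat, cl_neg]
    unfold rhs₂
    simp only [cl_add, cl_sub, cl_smul, cl_mul, cl_transpose, cl_toMat,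
      ContinuousLinearMap.comp_assoc]
  refine ⟨fun t => toMat (S₁ t), fun t => toMat (S₂ t), ⟨fun t _ => ?_, fun t _ => ?_, ?_, ?_,
    fun t ht i j => ?_, fun t ht i j => ?_⟩, fun t ht => ⟨?_, ?_⟩⟩
  · apply cl_inj
    rw [cl_transpose, cl_toMat, hP1s]
  · apply cl_inj
    rw [cl_transpose, cl_toMat, hP2s]
  · apply cl_inj
    rw [cl_toMat, hP1T, cl_zero]
  · apply cl_inj
    rw [cl_toMat, hP2T, cl_zero]
  · have h := hP1d t ht
    rw [hK2' t ht, hK1 t ht, Pool.Agent.ACF.riccati_one (cl (G.A₁ t)) (cl (G.A₂ t)) (S₁ t)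
      (S₂ t) (cl (G.B₁ t)) (cl (G.C₁ t)) (cl (G.C t)) hγ2.ne' (hP1s t) (hP2s t)] at h
    have h' := toMat_deriv h i j
    rw [e1 t] at h'
    exact h'
  · have h := hP2d t ht
    rw [hK2' t ht, hK1 t ht, Pool.Agent.ACF.riccati_two (cl (G.A₁ t)) (cl (G.A₂ t)) (S₁ t)
      (S₂ t) (cl (G.B₁ t)) (cl (G.C₁ t)) (cl (G.C t)) hγ2.ne' (hP1s t) (hP2s t)] at h
    have h' := toMat_deriv h i j
    rw [e2 t] at h'
    exact h'
  · apply cl_inj
    rw [hK2' t ht, cl_neg, cl_mul, cl_transpose, cl_toMat]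
  · apply cl_inj
    rw [hK1 t ht, cl_neg, cl_smul, cl_mul, cl_transpose, cl_toMat]

end Pool.Agent.Results.MP_aecc4f_an.NonlinearNash
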